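import Pool.Agent.Lib.helper9.Tube

set_option autoImplicit false

namespace Pool.Agent.Results.MP_b669e1_gt.Tube

open MeasureTheory Set Pool.Agent.H9Tube
open scoped RealInnerProductSpace

/-- Euclidean `n`-space -/
abbrev E (n : ℕ) := EuclideanSpace ℝ (Fin n)

/-- cutoff function `V_K^+` -/
noncomputable def cutP {n : ℕ} (K : Set (E n)) (ξ : E n) (t : ℝ) : ℝ :=
  (volume (K ∩ {x | ⟪x, ξ⟫ ≤ t})).toReal

/-- cutoff function `V_K^-` -/
noncomputable def cutM {n : ℕ} (K : Set (E n)) (ξ : E n) (t : ℝ) : ℝ :=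
  (volume (K ∩ {x | t ≤ ⟪x, ξ⟫})).toReal

/-- One polynomial `Φ(ξ,t,w)`, not identically zero on `S^{n-1} × ℝ × ℝ`, annihilates both cutoff
functions for all unit `ξ` and all `t`. -/
def AlgInt {n : ℕ} (K : Set (E n)) : Prop :=
  ∃ Φ : MvPolynomial (Fin n ⊕ Fin 2) ℝ,
    (∃ (ξ : E n) (t w : ℝ), ‖ξ‖ = 1 ∧
      MvPolynomial.eval (Sum.elim (fun i => ξ i) ![t, w]) Φ ≠ 0) ∧
    ∀ ξ : E n, ‖ξ‖ = 1 → ∀ t : ℝ,
      MvPolynomial.eval (Sum.elim (fun i => ξ i) ![t, cutP K ξ t]) Φ = 0 ∧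
      MvPolynomial.eval (Sum.elim (fun i => ξ i) ![t, cutM K ξ t]) Φ = 0

/-- Near each boundary point `K` is `{g ≤ 0}` for a `C^∞` function `g` with nonzero differential. -/
def SmoothBoundary {n : ℕ} (K : Set (E n)) : Prop :=
  ∀ x ∈ frontier K, ∃ U : Set (E n), IsOpen U ∧ x ∈ U ∧ ∃ g : E n → ℝ,
    ContDiffOn ℝ ((⊤ : ℕ∞) : WithTop ℕ∞) g U ∧ g x = 0 ∧ fderiv ℝ g x ≠ 0 ∧
      K ∩ U = {y | y ∈ U ∧ g y ≤ 0}

/-- image of the closed unit ball under an invertible affine map -/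
def IsEllipsoid {n : ℕ} (K : Set (E n)) : Prop :=
  ∃ A : E n ≃ᵃ[ℝ] E n, K = A '' Metric.closedBall 0 1

noncomputable def gg (z : E 5) : ℝ :=
  (z 0 ^ 2 + z 1 ^ 2 + z 2 ^ 2 + z 3 ^ 2 + z 4 ^ 2 + 3 / 4) ^ 2 - 4 * (z 0 ^ 2 + z 1 ^ 2 + z 2 ^ 2)

def KK : Set (E 5) := {z | gg z ≤ 0}

lemma gg_smooth : ContDiff ℝ ((⊤ : ℕ∞) : WithTop ℕ∞) gg := by
  unfold gg; fun_prop

lemma gg_iff (z : E 5) : gg z ≤ 0 ↔
    (Real.sqrt (z 0 ^ 2 + z 1 ^ 2 + z 2 ^ 2) - 1) ^ 2 + (z 3 ^ 2 + z 4 ^ 2) ≤ (1 / 2) ^ 2 := by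
  have h1 : 0 ≤ z 0 ^ 2 + z 1 ^ 2 + z 2 ^ 2 := by positivity
  have h2 := Real.sq_sqrt h1
  have h3 := Real.sqrt_nonneg (z 0 ^ 2 + z 1 ^ 2 + z 2 ^ 2)
  have h4 : 0 ≤ z 3 ^ 2 + z 4 ^ 2 := by positivity
  unfold gg
  set R := Real.sqrt (z 0 ^ 2 + z 1 ^ 2 + z 2 ^ 2)
  rw [← h2, add_assoc (R ^ 2)]
  set Y := z 3 ^ 2 + z 4 ^ 2
  have e : (R ^ 2 + Y + 3 / 4) ^ 2 - 4 * R ^ 2 =
      (R ^ 2 + Y + 3 / 4 + 2 * R) * ((R - 1) ^ 2 + Y - (1 / 2) ^ 2) := by ring
  rw [e]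
  have h5 : 0 < R ^ 2 + Y + 3 / 4 + 2 * R := by positivity
  constructor
  · intro h; nlinarith
  · intro h; nlinarith

lemma fd_ne {z : E 5} (hz : gg z = 0) : fderiv ℝ gg z ≠ 0 := by
  intro h0
  have hd : HasFDerivAt gg (0 : E 5 →L[ℝ] ℝ) z := by
    rw [← h0]; exact (gg_smooth.differentiable (by simp) z).hasFDerivAt
  have key : ∀ v : E 5, (z 0 ^ 2 + z 1 ^ 2 + z 2 ^ 2 + z 3 ^ 2 + z 4 ^ 2 + 3 / 4) *
      (z 0 * v 0 + z 1 * v 1 + z 2 * v 2 + z 3 * v 3 + z 4 * v 4) -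
      2 * (z 0 * v 0 + z 1 * v 1 + z 2 * v 2) = 0 := by
    intro v
    have h1 : HasDerivAt (fun s : ℝ => z + s • v) v 0 := by
      simpa using ((hasDerivAt_id (0 : ℝ)).smul_const v).const_add z
    have h2 : HasDerivAt (fun s : ℝ => gg (z + s • v)) 0 0 := by
      have := HasFDerivAt.comp_hasDerivAt_of_eq (0 : ℝ) hd h1 (by simp)
      simpa [Function.comp_def] using this
    have l : ∀ i, HasDerivAt (fun s : ℝ => z i + s * v i) (v i) 0 := fun i => by
      simpa using ((hasDerivAt_id (0 : ℝ)).mul_const (v i)).const_add (z i)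
    have h3 := ((((((((l 0).pow 2).add ((l 1).pow 2)).add ((l 2).pow 2)).add ((l 3).pow 2)).add
      ((l 4).pow 2)).add_const (3 / 4)).pow 2).sub
      (((((l 0).pow 2).add ((l 1).pow 2)).add ((l 2).pow 2)).const_mul 4)
    have h4 := h2.unique h3
    simp at h4
    linarith
  have k1 := key (WithLp.toLp 2 ![z 0, z 1, z 2, 0, 0])
  have k2 := key (WithLp.toLp 2 ![0, 0, 0, z 3, z 4])
  simp at k1 k2
  unfold gg at hz
  set X := z 0 ^ 2 + z 1 ^ 2 + z 2 ^ 2 with hX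
  have hX0 : 0 ≤ X := by positivity
  have hY : z 3 ^ 2 + z 4 ^ 2 = 0 := by
    rcases k2 with k2 | k2
    · nlinarith [sq_nonneg (z 3), sq_nonneg (z 4)]
    · nlinarith
  have e : X + z 3 ^ 2 + z 4 ^ 2 = X := by linarith
  rw [e] at hz k1
  have k3 : (X + 3 / 4) * X - 2 * X = 0 := by rw [hX] at k1 ⊢; linarith
  have : X * (X - 5 / 4) = 0 := by linarith
  rcases mul_eq_zero.1 this with h | h
  · rw [h] at hz; norm_num at hz
  · rw [show X = 5 / 4 by linarith] at hz; norm_num at hz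

lemma KK_closed : IsClosed KK := isClosed_le gg_smooth.continuous continuous_const

lemma front : frontier KK = {z | gg z = 0} := by
  apply Subset.antisymm (frontier_le_subset_eq gg_smooth.continuous continuous_const)
  intro z hz
  refine ⟨subset_closure (le_of_eq hz), fun hi => fd_ne hz (IsLocalMax.fderiv_eq_zero ?_)⟩
  filter_upwards [mem_interior_iff_mem_nhds.1 hi] with y hy
  rw [show gg z = 0 from hz]; exact hy

noncomputable def ps (z : E 5) : (Fin 3 → ℝ) × (Fin 2 → ℝ) := (![z 0, z 1, z 2], ![z 3, z 4])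

lemma ps_mp : MeasurePreserving ps volume volume := by
  have h := (volume_measurePreserving_sumPiEquivProdPi (fun _ : Fin 3 ⊕ Fin 2 => ℝ)).comp
    ((volume_preserving_arrowCongr' (finSumFinEquiv (m := 3) (n := 2)).symm
      (MeasurableEquiv.refl ℝ) (.id volume)).comp (PiLp.volume_preserving_ofLp (Fin 5)))
  have e : ps = (MeasurableEquiv.sumPiEquivProdPi (fun _ : Fin 3 ⊕ Fin 2 => ℝ)) ∘
      (MeasurableEquiv.arrowCongr' (finSumFinEquiv (m := 3) (n := 2)).symm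
        (MeasurableEquiv.refl ℝ)) ∘ WithLp.ofLp := by
    ext z i <;> fin_cases i <;> rfl
  rw [e]; exact h

lemma vol_eq (c : ℝ) (ξ : Fin 5 → ℝ) (t : ℝ) :
    volume (KK ∩ {x | c * ⟪x, WithLp.toLp 2 ξ⟫ ≤ t}) = volume (tube 3 2 (1 / 2)
      (fun i => c * ξ (Fin.castAdd 2 i)) (fun j => c * ξ (Fin.natAdd 3 j)) t) := by
  rw [← ps_mp.measure_preimage (tube_closed _ _ _ _ _ _).measurableSet.nullMeasurableSet]
  congr 1
  ext x
  simp only [KK, mem_inter_iff, mem_ofPred_eq, gg_iff, mem_preimage, tube, ps, Fin.sum_univ_succ,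
    PiLp.inner_apply]
  simp [add_assoc]
  intro _
  constructor <;> intro h <;> linarith

lemma KK_compact : IsCompact KK := by
  apply Metric.isCompact_of_isClosed_isBounded KK_closed
  refine (Metric.isBounded_closedBall (x := 0) (r := 2)).subset fun z hz => ?_
  rw [mem_closedBall_zero_iff]
  have h := EuclideanSpace.real_norm_sq_eq z
  simp only [Fin.sum_univ_five] at h
  simp only [KK, gg, mem_ofPred_eq] at hz
  by_contra hc
  have : 4 < ‖z‖ ^ 2 := by nlinarith [not_le.1 hc]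
  nlinarith [sq_nonneg (z 3), sq_nonneg (z 4)]

lemma alg_int : AlgInt KK := by
  have hP : Alg fun ω : Fin 5 ⊕ Unit → ℝ =>
      cutP KK (WithLp.toLp 2 fun i => ω (Sum.inl i)) (ω (Sum.inr ())) := by
    have := tube_alg' (σ := Fin 5 ⊕ Unit) (n := 2) (m := 2) even_two even_two (ε := 1 / 2)
      (by norm_num) (by norm_num) (fun i => Sum.inl (Fin.castAdd 2 i)) 1 one_ne_zero
      (b := fun ω j => 1 * ω (Sum.inl (Fin.natAdd 3 j))) (fun j => (Alg.const 1).mul (Alg.coord _))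
      (t := fun ω => ω (Sum.inr ())) (Alg.coord _)
    convert this using 2 with ω
    rw [← vol_eq 1 fun i => ω (Sum.inl i)]
    simp [cutP]
  have hM : Alg fun ω : Fin 5 ⊕ Unit → ℝ =>
      cutM KK (WithLp.toLp 2 fun i => ω (Sum.inl i)) (ω (Sum.inr ())) := by
    have := tube_alg' (σ := Fin 5 ⊕ Unit) (n := 2) (m := 2) even_two even_two (ε := 1 / 2)
      (by norm_num) (by norm_num) (fun i => Sum.inl (Fin.castAdd 2 i)) (-1) (by norm_num)
      (b := fun ω j => -1 * ω (Sum.inl (Fin.natAdd 3 j)))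
      (fun j => (Alg.const (-1)).mul (Alg.coord _))
      (t := fun ω => - ω (Sum.inr ())) (Alg.coord _).neg
    convert this using 2 with ω
    rw [← vol_eq (-1) fun i => ω (Sum.inl i)]
    simp [cutM]
  obtain ⟨F, hF, h1⟩ := hP.exists_mv
  obtain ⟨G, hG, h2⟩ := hM.exists_mv
  have hS : (∑ i : Fin 5, (MvPolynomial.X (some (Sum.inl i))) ^ 2 :
      MvPolynomial (Option (Fin 5 ⊕ Unit)) ℝ) ≠ 0 := by
    intro h
    have := congrArg (MvPolynomial.eval fun _ => (1 : ℝ)) h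
    simp at this
  obtain ⟨p, hp⟩ : ∃ p, MvPolynomial.eval p (F * G * ∑ i : Fin 5,
      (MvPolynomial.X (some (Sum.inl i))) ^ 2) ≠ 0 := by
    by_contra hc
    push Not at hc
    exact mul_ne_zero (mul_ne_zero hF hG) hS (MvPolynomial.funext fun x => by simpa using hc x)
  rw [map_mul] at hp
  obtain ⟨hp1, hp2⟩ := mul_ne_zero_iff.1 hp
  set ξ0 : E 5 := WithLp.toLp 2 fun i => p (some (Sum.inl i)) with hξ0
  have hl : 0 < ‖ξ0‖ := by
    have := EuclideanSpace.real_norm_sq_eq ξ0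
    refine lt_of_le_of_ne (norm_nonneg _) fun h => hp2 ?_
    rw [← h] at this
    simpa [hξ0] using this.symm
  set l := ‖ξ0‖
  let sb : Option (Fin 5 ⊕ Unit) → MvPolynomial (Fin 5 ⊕ Fin 2) ℝ := fun o =>
    o.elim (MvPolynomial.X (Sum.inr 1))
      fun s => MvPolynomial.C l * MvPolynomial.X (Sum.map id (fun _ => 0) s)
  have ev : ∀ (x : Fin 5 ⊕ Fin 2 → ℝ) (H : MvPolynomial (Option (Fin 5 ⊕ Unit)) ℝ),
      MvPolynomial.eval x (MvPolynomial.bind₁ sb H) = MvPolynomial.eval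
        (fun o => Option.elim o (x (Sum.inr 1)) fun s => l * x (Sum.map id (fun _ => 0) s)) H := by
    intro x H
    have := MvPolynomial.aeval_bind₁ x sb H
    simp only [MvPolynomial.aeval_eq_eval] at this
    rw [this]
    congr 2
    ext o
    rcases o with _ | s <;> simp [sb]
  refine ⟨MvPolynomial.bind₁ sb (F * G), ⟨l⁻¹ • ξ0, l⁻¹ * p (some (Sum.inr ())), p none,
    by rw [norm_smul, norm_inv, norm_norm]; exact inv_mul_cancel₀ hl.ne', ?_⟩, fun ξ _ t => ?_⟩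
  · rw [ev]
    convert hp1 using 3
    ext o
    rcases o with _ | s | s <;> simp [hξ0, hl.ne']
  · have e1 : (WithLp.toLp 2 fun i => l * ξ i : E 5) = l • ξ := rfl
    constructor
    · rw [ev, map_mul]
      apply mul_eq_zero_of_left
      convert h1 (Sum.elim (fun i => l * ξ i) fun _ => l * t) using 3
      ext o
      rcases o with _ | s | s <;> simp [e1, cutP, inner_smul_right, hl]
    · rw [ev, map_mul]
      apply mul_eq_zero_of_right
      convert h2 (Sum.elim (fun i => l * ξ i) fun _ => l * t) using 3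
      ext o
      rcases o with _ | s | s <;> simp [e1, cutM, inner_smul_right, hl]

noncomputable def par (p : E 3 × E 3) : E 5 :=
  WithLp.toLp 2 ![(1 + p.2 0) * p.1 0, (1 + p.2 0) * p.1 1, (1 + p.2 0) * p.1 2, p.2 1, p.2 2]

lemma front_conn : IsConnected (frontier KK) := by
  have hr : 1 < Module.rank ℝ (E 3) := by
    rw [← Module.finrank_eq_rank]; simp
  have hc := ((isConnected_sphere hr (0 : E 3) (r := 1) (by norm_num)).prod
    (isConnected_sphere hr (0 : E 3) (r := 1 / 2) (by norm_num))).image par (by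
      apply Continuous.continuousOn
      unfold par
      refine (PiLp.continuous_toLp 2 _).comp (continuous_pi fun i => ?_)
      fin_cases i <;> simp <;> fun_prop)
  convert hc using 1
  rw [front]
  have sp : ∀ (w : E 3) (r : ℝ), 0 ≤ r →
      (w ∈ Metric.sphere (0 : E 3) r ↔ w 0 ^ 2 + w 1 ^ 2 + w 2 ^ 2 = r ^ 2) := by
    intro w r hr
    rw [mem_sphere_zero_iff_norm, ← sq_eq_sq₀ (norm_nonneg _) hr, EuclideanSpace.real_norm_sq_eq,
      Fin.sum_univ_three]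
  ext z
  simp only [mem_ofPred_eq, mem_image, mem_prod, Prod.exists, sp _ _ zero_le_one,
    sp _ _ (show (0 : ℝ) ≤ 1 / 2 by norm_num)]
  constructor
  · intro hz
    have h1 : 0 ≤ z 0 ^ 2 + z 1 ^ 2 + z 2 ^ 2 := by positivity
    have h2 := Real.sq_sqrt h1
    have h3 := Real.sqrt_nonneg (z 0 ^ 2 + z 1 ^ 2 + z 2 ^ 2)
    unfold gg at hz
    set R := Real.sqrt (z 0 ^ 2 + z 1 ^ 2 + z 2 ^ 2)
    have h4 : 0 ≤ z 3 ^ 2 + z 4 ^ 2 := by positivity
    have h5 : R ^ 2 + z 3 ^ 2 + z 4 ^ 2 + 3 / 4 = 2 * R := by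
      rw [← h2] at hz
      have : (R ^ 2 + z 3 ^ 2 + z 4 ^ 2 + 3 / 4) ^ 2 = (2 * R) ^ 2 := by linarith
      exact (sq_eq_sq₀ (by positivity) (by positivity)).1 this
    have h6 : R ≠ 0 := by
      intro h; rw [h] at h5; nlinarith
    refine ⟨WithLp.toLp 2 ![z 0 / R, z 1 / R, z 2 / R], WithLp.toLp 2 ![R - 1, z 3, z 4],
      ⟨?_, ?_⟩, ?_⟩
    · simp; field_simp; linarith
    · simp; linarith
    · ext i; fin_cases i <;> simp [par] <;> field_simp
  · rintro ⟨θ, w, ⟨h1, h2⟩, rfl⟩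
    simp only [gg, par]
    simp
    have e : ((1 + w 0) * θ 0) ^ 2 + ((1 + w 0) * θ 1) ^ 2 + ((1 + w 0) * θ 2) ^ 2 =
        (1 + w 0) ^ 2 := by linear_combination (1 + w 0) ^ 2 * h1
    rw [e]
    have e2 : (1 + w 0) ^ 2 + w 1 ^ 2 + w 2 ^ 2 + 3 / 4 = 2 * (1 + w 0) := by linarith
    rw [e2]; ring

theorem result : ∃ n : ℕ, Odd n ∧ ∃ K : Set (E n), IsCompact K ∧ (interior K).Nonempty ∧
    SmoothBoundary K ∧ IsConnected (frontier K) ∧ AlgInt K ∧ ¬ IsEllipsoid K := by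
  refine ⟨5, by decide, KK, KK_compact, ?_, ?_, front_conn, alg_int, ?_⟩
  · refine ⟨WithLp.toLp 2 ![1, 0, 0, 0, 0], interior_maximal (t := {z | gg z < 0}) (s := KK)
      (fun z (hz : gg z < 0) => hz.le) (isOpen_lt gg_smooth.continuous continuous_const) ?_⟩
    simp [gg]; norm_num
  · intro x hx
    rw [front] at hx
    exact ⟨univ, isOpen_univ, trivial, gg, gg_smooth.contDiffOn, hx, fd_ne hx, by simp [KK]⟩
  · rintro ⟨A, hA⟩
    have hc : Convex ℝ KK := by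
      rw [hA]; exact (convex_closedBall 0 1).affine_image A.toAffineMap
    have := hc (x := WithLp.toLp 2 ![1, 0, 0, 0, 0]) (by simp [KK, gg]; norm_num)
      (y := WithLp.toLp 2 ![-1, 0, 0, 0, 0]) (by simp [KK, gg]; norm_num)
      (a := 1 / 2) (b := 1 / 2) (by norm_num) (by norm_num) (by norm_num)
    simp [KK, gg] at this

end Pool.Agent.Results.MP_b669e1_gt.Tube
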